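import Pool.Agent.D0H73.OP.Stm

/-!
# Project OP, module ABEL: pointwise openness makes the group abelian

The proofs are those of `V1192/UOA.lean` (uniform openness is used there only at the pairs `(e, 1 - e)`).
-/

set_option autoImplicit false

open Filter Topology Pool.Agent.V1192.GA Metric
open Pool.Agent.V1192.UO (peirce_core compl_idem comm_of_central)
open Pool.Agent.D0H73.OP (OpenMul)

namespace Pool.Agent.D0H43.OP

section Central

variable {A : Type} [NormedRing A] [NormedAlgebra ℂ A] [CompleteSpace A]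

/-- Half of the centrality of idempotents. -/
theorem idem_half (hA : OpenMul A) (e : A) (he : e * e = e) (t : A) :
    (1 - e) * t * e = 0 := by
  set f : A := 1 - e with hf
  have hff : f * f = f := compl_idem e he
  have hef : e * f = 0 := by rw [hf, mul_sub, mul_one, he, sub_self]
  have hfe : f * e = 0 := by rw [hf, sub_mul, one_mul, he, sub_self]
  have h1 : e + f = 1 := by rw [hf]; abel
  set K : ℝ := ‖e‖ * ‖e‖ + ‖f‖ * ‖f‖ + 1 with hK
  have hK0 : 0 < K := by positivity
  obtain ⟨δ, hδ, hopen⟩ := hA e f (1 / K) (by positivity)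
  -- scale the element `f t e`
  set h0 : A := f * t * e with hh0
  obtain ⟨c, hc0, hc⟩ : ∃ c : ℂ, c ≠ 0 ∧ ‖c • h0‖ < δ := by
    refine ⟨((δ / (‖h0‖ + 1) / 2 : ℝ) : ℂ), ?_, ?_⟩
    · have : δ / (‖h0‖ + 1) / 2 ≠ 0 := by positivity
      exact_mod_cast this
    · rw [norm_smul, Complex.norm_real, Real.norm_of_nonneg (by positivity)]
      have h2 : (0 : ℝ) < ‖h0‖ + 1 := by positivity
      have h3 : δ / (‖h0‖ + 1) / 2 * ‖h0‖ ≤ δ / 2 := by
        rw [div_div, div_mul_eq_mul_div, div_le_div_iff₀ (by positivity) (by positivity)]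
        nlinarith [norm_nonneg h0]
      linarith
  obtain ⟨x, hx, y, hy, hxy⟩ := hopen (c • h0) (by
    rw [hef, mem_ball_zero_iff]; exact hc)
  rw [mem_ball, dist_eq_norm] at hx hy
  have hu : IsUnit (e * x * e + f) := by
    have h2 : e * x * e + f = 1 - e * (e - x) * e := by
      rw [hf]
      have : e * (e - x) * e = e - e * x * e := by
        calc e * (e - x) * e = e * e * e - e * x * e := by noncomm_ring
          _ = _ := by rw [he, he]
      rw [this]; abel
    rw [h2]
    have h3 : ‖e * (e - x) * e‖ < 1 := by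
      calc ‖e * (e - x) * e‖ ≤ ‖e‖ * ‖e - x‖ * ‖e‖ :=
            (norm_mul_le _ _).trans (mul_le_mul_of_nonneg_right (norm_mul_le _ _) (norm_nonneg _))
        _ = (‖e‖ * ‖e‖) * ‖x - e‖ := by rw [norm_sub_rev e x]; ring
        _ ≤ (‖e‖ * ‖e‖) * (1 / K) := mul_le_mul_of_nonneg_left hx.le (by positivity)
        _ < 1 := by
          rw [mul_one_div, div_lt_one hK0, hK]
          nlinarith [mul_self_nonneg ‖f‖]
    exact isUnit_one_sub_of_norm_lt_one h3
  have hw : IsUnit (f * y * f + e) := by
    have h2 : f * y * f + e = 1 - f * (f - y) * f := by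
      have : f * (f - y) * f = f - f * y * f := by
        calc f * (f - y) * f = f * f * f - f * y * f := by noncomm_ring
          _ = _ := by rw [hff, hff]
      rw [this, ← h1]; abel
    rw [h2]
    have h3 : ‖f * (f - y) * f‖ < 1 := by
      calc ‖f * (f - y) * f‖ ≤ ‖f‖ * ‖f - y‖ * ‖f‖ :=
            (norm_mul_le _ _).trans (mul_le_mul_of_nonneg_right (norm_mul_le _ _) (norm_nonneg _))
        _ = (‖f‖ * ‖f‖) * ‖y - f‖ := by rw [norm_sub_rev f y]; ring
        _ ≤ (‖f‖ * ‖f‖) * (1 / K) := mul_le_mul_of_nonneg_left hy.le (by positivity)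
        _ < 1 := by
          rw [mul_one_div, div_lt_one hK0, hK]
          nlinarith [mul_self_nonneg ‖e‖]
    exact isUnit_one_sub_of_norm_lt_one h3
  have h2 := peirce_core e f x y (c • h0) he hff hef hfe h1 hxy (by
    rw [mul_smul_comm, smul_mul_assoc, hh0]
    congr 1
    calc f * (f * t * e) * e = (f * f) * t * (e * e) := by noncomm_ring
      _ = _ := by rw [hff, he]) hu hw
  exact (smul_eq_zero.1 h2).resolve_left hc0

/-- In an algebra with open multiplication idempotents are central. -/
theorem idem_central (hA : OpenMul A) (e : A) (he : e * e = e) (t : A) : e * t = t * e := by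
  have h1 := idem_half hA e he t
  have h2 := idem_half hA (1 - e) (compl_idem e he) t
  have h3 : t * e = e * t * e := by
    have : (1 - e) * t * e = t * e - e * t * e := by noncomm_ring
    rw [this] at h1
    exact sub_eq_zero.1 h1
  have h4 : e * t = e * t * e := by
    have : (1 - (1 - e)) * t * (1 - e) = e * t - e * t * e := by noncomm_ring
    rw [this] at h2
    exact sub_eq_zero.1 h2
  rw [h3, ← h4]

end Central

/-- **module ABEL** -/
theorem t_ABEL : Pool.Agent.D0H73.OP.S_ABEL := by
  intro G _ n hn hG hA x y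
  refine (comm_of_central (fun e he t => idem_central hA e he t) x y ?_).symm
  exact (orderOf_pos_iff.2 (isOfFinOrder_iff_pow_eq_one.2 ⟨n, hn, hG x⟩)).ne'

end Pool.Agent.D0H43.OP
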