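import Pool.Agent.D0H73.OP.Stm

/-!
# Project OP, module PUSH: from the group algebra to the finite groups
-/

set_option autoImplicit false
set_option linter.unusedSectionVars false

open Finset Filter Topology Metric
open scoped BigOperators
open Pool.Agent.V1192 Pool.Agent.V1192.GA Pool.Agent.V1192.UOC
open Pool.Agent.V1192.UOD (V)
open Pool.Agent.D0H73.OP

namespace Pool.Agent.D0H43.OP

noncomputable section

section xi

variable {G : Type} [Group G]

/-- the averages `ξ_i` -/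
def xi (p : ℕ) [Fact p.Prime] (N : ℕ → ℕ) (t : (i : ℕ) → Fin (N i) → G) (i : ℕ) : GA G :=
  (1 / ((N i : ℂ) * ((p : ℂ) - 1))) •
    ∑ j : Fin (N i), ∑ a ∈ (univ : Finset (ZMod p)).erase 0, pt (t i j ^ a.val)

variable {p : ℕ} [Fact p.Prime] {N : ℕ → ℕ} {t : (i : ℕ) → Fin (N i) → G}

lemma card_er : ((univ : Finset (ZMod p)).erase 0).card = p - 1 := by
  rw [Finset.card_erase_of_mem (mem_univ _), Finset.card_univ, ZMod.card]

lemma p_sub : ((p : ℂ) - 1) = ((p - 1 : ℕ) : ℂ) := by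
  have h := (Fact.out : p.Prime).one_lt
  rw [Nat.cast_sub h.le, Nat.cast_one]

lemma p_sub_pos : 0 < p - 1 := by
  have h := (Fact.out : p.Prime).one_lt
  omega

lemma norm_xi {i : ℕ} (hN : 0 < N i) : ‖xi p N t i‖ ≤ 1 := by
  have hp := p_sub_pos (p := p)
  have h1 : ‖∑ j : Fin (N i), ∑ a ∈ (univ : Finset (ZMod p)).erase 0,
      (pt (t i j ^ a.val) : GA G)‖ ≤ (N i : ℝ) * ((p - 1 : ℕ) : ℝ) := by
    refine (norm_sum_le _ _).trans ?_
    have h2 : ∀ j ∈ (univ : Finset (Fin (N i))), ‖∑ a ∈ (univ : Finset (ZMod p)).erase 0,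
        (pt (t i j ^ a.val) : GA G)‖ ≤ ((p - 1 : ℕ) : ℝ) := by
      intro j _
      refine (norm_sum_le _ _).trans ?_
      simp only [norm_pt]
      rw [Finset.sum_const, card_er, nsmul_eq_mul, mul_one]
    refine (Finset.sum_le_sum h2).trans ?_
    rw [Finset.sum_const, Finset.card_univ, Fintype.card_fin, nsmul_eq_mul]
  have h3 : (0 : ℝ) < (N i : ℝ) * ((p - 1 : ℕ) : ℝ) := by positivity
  unfold xi
  rw [norm_smul, p_sub, norm_div, norm_one, norm_mul, Complex.norm_natCast, Complex.norm_natCast,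
    div_mul_eq_mul_div, one_mul, div_le_one h3]
  exact h1

lemma map_xi (L : GA G →L[ℂ] ℂ) (i : ℕ) : L (xi p N t i) = (1 / ((N i : ℂ) * ((p : ℂ) - 1))) *
    ∑ j : Fin (N i), ∑ a ∈ (univ : Finset (ZMod p)).erase 0, L (pt (t i j ^ a.val)) := by
  unfold xi
  rw [map_smul, smul_eq_mul, map_sum]
  simp only [map_sum]

end xi

section psi

variable {G : Type} [Group G] {p : ℕ} [Fact p.Prime] {N : ℕ → ℕ} {t : (i : ℕ) → Fin (N i) → G}
  {ψ : (i : ℕ) → G → V p (N i)}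

/-- the map to the product of the first `n` blocks -/
def ps (ψ : (i : ℕ) → G → V p (N i)) (n : ℕ) (g : G) : H p N n := fun i => ψ i g

lemma psi_pow (hψ : ∀ i g h, ψ i (g * h) = ψ i g + ψ i h) (i : ℕ) (g : G) (m : ℕ) :
    ψ i (g ^ m) = m • ψ i g := by
  induction m with
  | zero =>
    have h := hψ i 1 1
    rw [mul_one] at h
    rw [pow_zero, zero_smul]
    exact left_eq_add.1 h
  | succ m ih => rw [pow_succ, hψ, ih, succ_nsmul]

lemma ps_add (hψ : ∀ i g h, ψ i (g * h) = ψ i g + ψ i h) (n : ℕ) (g h : G) :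
    ps ψ n (g * h) = ps ψ n g + ps ψ n h := by
  funext i
  exact hψ i g h

lemma ps_t (hψ : ∀ i g h, ψ i (g * h) = ψ i g + ψ i h) (ht : ∀ i j, ψ i (t i j) = Pi.single j 1)
    (ht0 : ∀ i i' j, i' ≠ i → ψ i' (t i j) = 0) {n : ℕ} (i : Fin n) (j : Fin (N i)) (a : ZMod p) :
    ps ψ n (t i j ^ a.val) = Pi.single i (Pi.single j a) := by
  funext i'
  by_cases h : i' = i
  · subst h
    rw [Pi.single_eq_same]
    show ψ i' (t i' j ^ a.val) = _
    rw [psi_pow hψ, ht]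
    funext j'
    rw [Pi.smul_apply]
    by_cases h2 : j' = j
    · subst h2
      rw [Pi.single_eq_same, Pi.single_eq_same, nsmul_eq_mul, mul_one, ZMod.natCast_zmod_val]
    · rw [Pi.single_eq_of_ne h2, Pi.single_eq_of_ne h2, smul_zero]
  · rw [Pi.single_eq_of_ne h]
    show ψ i' (t i j ^ a.val) = _
    rw [psi_pow hψ, ht0 i i' j (fun h2 => h (Fin.ext h2)), smul_zero]

lemma ps_t0 (hψ : ∀ i g h, ψ i (g * h) = ψ i g + ψ i h)
    (ht0 : ∀ i i' j, i' ≠ i → ψ i' (t i j) = 0) {n : ℕ} {i : ℕ} (hi : n ≤ i) (j : Fin (N i)) (a : ZMod p) :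
    ps ψ n (t i j ^ a.val) = 0 := by
  funext i'
  show ψ i' (t i j ^ a.val) = _
  rw [psi_pow hψ, ht0 i i' j (by have := i'.2; omega), smul_zero]
  rfl

lemma LF_xi (hψ : ∀ i g h, ψ i (g * h) = ψ i g + ψ i h) (ht : ∀ i j, ψ i (t i j) = Pi.single j 1)
    (ht0 : ∀ i i' j, i' ≠ i → ψ i' (t i j) = 0) {n : ℕ} (F : H p N n → ℂ) (i : Fin n) :
    LF (ps ψ n) F (xi p N t i) = Ex i F := by
  rw [map_xi]
  unfold Ex
  congr 1
  refine Finset.sum_congr rfl fun j _ => Finset.sum_congr rfl fun a _ => ?_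
  rw [LF_pt, ps_t hψ ht ht0]

lemma LF_xi0 (hψ : ∀ i g h, ψ i (g * h) = ψ i g + ψ i h)
    (ht0 : ∀ i i' j, i' ≠ i → ψ i' (t i j) = 0) {n : ℕ} (F : H p N n → ℂ) {i : ℕ} (hN : 0 < N i)
    (hi : n ≤ i) : LF (ps ψ n) F (xi p N t i) = F 0 := by
  rw [map_xi]
  have h1 : ∀ j : Fin (N i), ∀ a : ZMod p, LF (ps ψ n) F (pt (t i j ^ a.val)) = F 0 := by
    intro j a
    rw [LF_pt, ps_t0 hψ ht0 hi]
  simp only [h1]
  rw [Finset.sum_const, Finset.sum_const, card_er, Finset.card_univ, Fintype.card_fin, nsmul_eq_mul,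
    nsmul_eq_mul, p_sub]
  have h2 : (N i : ℂ) ≠ 0 := by exact_mod_cast hN.ne'
  have h3 : ((p - 1 : ℕ) : ℂ) ≠ 0 := by exact_mod_cast (p_sub_pos (p := p)).ne'
  field_simp

end psi

section main

variable {G : Type} [Group G] {p : ℕ} [Fact p.Prime] {N : ℕ → ℕ} {t : (i : ℕ) → Fin (N i) → G}
  {ψ : (i : ℕ) → G → V p (N i)}

/-- the element `a` -/
def el (p : ℕ) [Fact p.Prime] (N : ℕ → ℕ) (t : (i : ℕ) → Fin (N i) → G) : GA G :=
  ∑' i, (w p i : ℂ) • xi p N t i

lemma norm_term (hw : ∀ k, 0 < w p k) (hN : ∀ i, 0 < N i) (i : ℕ) :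
    ‖(w p i : ℂ) • xi p N t i‖ ≤ w p i := by
  rw [norm_smul, Complex.norm_real, Real.norm_of_nonneg (hw i).le]
  exact mul_le_of_le_one_right (hw i).le (norm_xi (hN i))

lemma summable_el (hw : ∀ k, 0 < w p k) (hs : Summable (w p)) (hN : ∀ i, 0 < N i) :
    Summable fun i => (w p i : ℂ) • xi p N t i :=
  Summable.of_norm_bounded hs fun i => norm_term hw hN i

lemma norm_el (hw : ∀ k, 0 < w p k) (hs : Summable (w p)) (hN : ∀ i, 0 < N i)
    (ht : ∑' i, w p i ≤ 2) : ‖el p N t‖ ≤ 2 :=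
  (tsum_of_norm_bounded hs.hasSum fun i => norm_term hw hN i).trans ht

/-- **the push-forward of `a`** -/
lemma LF_el (hw : ∀ k, 0 < w p k) (hs : Summable (w p)) (hN : ∀ i, 0 < N i)
    (hψ : ∀ i g h, ψ i (g * h) = ψ i g + ψ i h) (ht : ∀ i j, ψ i (t i j) = Pi.single j 1)
    (ht0 : ∀ i i' j, i' ≠ i → ψ i' (t i j) = 0) {n : ℕ} (F : H p N n → ℂ) :
    LF (ps ψ n) F (el p N t) = ∑ i : Fin n, (w p i : ℂ) * Ex i F +
      ((∑' i, w p (i + n) : ℝ) : ℂ) * F 0 := by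
  have h1 : LF (ps ψ n) F (el p N t) = ∑' i, (w p i : ℂ) * LF (ps ψ n) F (xi p N t i) := by
    unfold el
    rw [ContinuousLinearMap.map_tsum _ (summable_el hw hs hN)]
    refine tsum_congr fun i => ?_
    rw [map_smul, smul_eq_mul]
  have h2 : Summable fun i => (w p i : ℂ) * LF (ps ψ n) F (xi p N t i) := by
    have h3 := (summable_el (t := t) hw hs hN).mapL (LF (ps ψ n) F)
    refine h3.congr fun i => ?_
    rw [map_smul, smul_eq_mul]
  rw [h1, ← h2.sum_add_tsum_nat_add n, Finset.sum_range]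
  congr 1
  · refine Finset.sum_congr rfl fun i _ => ?_
    rw [LF_xi hψ ht ht0]
  · have h4 : ∀ i, (w p (i + n) : ℂ) * LF (ps ψ n) F (xi p N t (i + n)) = (w p (i + n) : ℂ) * F 0 := by
      intro i
      rw [LF_xi0 hψ ht0 F (hN _) (Nat.le_add_left n i)]
    simp only [h4]
    rw [tsum_mul_right, Complex.ofReal_tsum]

end main

/-- the functionals are additive -/
lemma ap_add {p : ℕ} [Fact p.Prime] {N : ℕ → ℕ} {n : ℕ} (x y : H p N n → ℂ) (F : H p N n → ℂ) :
    ap (x + y) F = ap x F + ap y F := by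
  unfold ap
  rw [← Finset.sum_add_distrib]
  refine Finset.sum_congr rfl fun g _ => ?_
  rw [Pi.add_apply]
  ring

open Classical in
/-- the point mass at `0` -/
def dl {p : ℕ} [Fact p.Prime] {N : ℕ → ℕ} {n : ℕ} (τ : ℂ) (g : H p N n) : ℂ := if g = 0 then τ else 0

lemma ap2_pert {p : ℕ} [Fact p.Prime] {N : ℕ → ℕ} {n : ℕ} (b : H p N n → ℂ) (τ : ℂ)
    (F : H p N n → ℂ) : ap2 (fun g => b g + dl τ g) (fun g => b g + dl τ g) F =
      ap2 b b F + 2 * τ * ap b F + τ ^ 2 * F 0 := by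
  classical
  have h1 : ∀ f : H p N n → ℂ, ∑ g, dl τ g * f g = τ * f 0 := by
    intro f
    rw [Finset.sum_eq_single (0 : H p N n)]
    · unfold dl
      rw [if_pos rfl]
    · intro g _ hg
      unfold dl
      rw [if_neg hg, zero_mul]
    · intro h
      exact absurd (mem_univ _) h
  have h2 : ∀ g, ∑ h, (b g + dl τ g) * (b h + dl τ h) * F (g + h) =
      ∑ h, b g * b h * F (g + h) + b g * (τ * F g) + dl τ g * (∑ h, b h * F (g + h)) +
        dl τ g * (τ * F g) := by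
    intro g
    have h3 := h1 (fun h => F (g + h))
    rw [add_zero] at h3
    rw [← h3, Finset.mul_sum, Finset.mul_sum, Finset.mul_sum, ← Finset.sum_add_distrib,
      ← Finset.sum_add_distrib, ← Finset.sum_add_distrib]
    refine Finset.sum_congr rfl fun h _ => ?_
    ring
  unfold ap2 ap
  simp only [h2]
  rw [Finset.sum_add_distrib, Finset.sum_add_distrib, Finset.sum_add_distrib, h1, h1]
  simp only [zero_add]
  have h4 : ∑ g, b g * (τ * F g) = τ * ∑ g, b g * F g := by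
    rw [Finset.mul_sum]
    refine Finset.sum_congr rfl fun g _ => ?_
    ring
  rw [h4]
  ring

/-- **module PUSH** -/
theorem t_PUSH : S_FIN → S_GRP → S_NUM → S_AAF → S_PUSH := by
  intro hFIN hGRP hNUM hAAF G _ _ hc n hn hG hA
  let _ : CommGroup G := { ‹Group G› with mul_comm := hc }
  obtain ⟨p, hp, hmaps⟩ := hGRP G n hn hG
  haveI : Fact p.Prime := ⟨hp⟩
  obtain ⟨N, hN, hfin⟩ := hFIN p
  obtain ⟨ψ, hψ, t, ht, ht0⟩ := hmaps N
  obtain ⟨n1, -, -, -, hs, n6⟩ := hNUM p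
  have hw : ∀ k, 0 < w p k := fun k => (n1 k).1
  have hw1 : ∀ k, w p k ≤ 1 := fun k => (n1 k).2.1
  have ht2 : ∑' i, w p i ≤ 2 := by
    have h := n6 0
    simp only [add_zero] at h
    have h0 : w p 0 = 1 := rfl
    rw [h0] at h
    linarith
  set a : GA G := el p N t with ha
  have hna : ‖a‖ ≤ 2 := norm_el hw hs hN ht2
  obtain ⟨δ, hδ, hopen⟩ := hA a a (1 / 8) (by norm_num)
  obtain ⟨l, hl⟩ : ∃ l, w p l < δ := by
    have h := hs.tendsto_atTop_zero.eventually (gt_mem_nhds hδ)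
    exact h.exists
  set c : GA G := a * a + ((w p l ^ 2 / 100 : ℝ) : ℂ) • xi p N t (l + 1) with hcdef
  have hlw : w p l ^ 2 / 100 < δ := by
    have h1 : w p l ^ 2 ≤ w p l := by nlinarith [hw l, hw1 l]
    have h2 := hw l
    linarith
  obtain ⟨x, hx, y, hy, hxy⟩ := hopen c (by
    rw [mem_ball, dist_eq_norm, hcdef, add_sub_cancel_left, norm_smul, Complex.norm_real,
      Real.norm_of_nonneg (by positivity)]
    have h1 : w p l ^ 2 / 100 * ‖xi p N t (l + 1)‖ ≤ w p l ^ 2 / 100 :=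
      mul_le_of_le_one_right (by positivity) (norm_xi (hN _))
    exact lt_of_le_of_lt h1 hlw)
  rw [mem_ball, dist_eq_norm] at hx hy
  have hnx : ∀ z : GA G, ‖z - a‖ < 1 / 8 → ‖z‖ ≤ 3 := by
    intro z hz
    have h1 : ‖z‖ ≤ ‖z - a‖ + ‖a‖ := by
      have := norm_add_le (z - a) a
      rwa [sub_add_cancel] at this
    linarith
  set n' : ℕ := l + 2 with hn'
  have hadd : ∀ g h, ps ψ (l + 2) (g * h) = ps ψ (l + 2) g + ps ψ (l + 2) h := ps_add hψ (l + 2)
  set T : ℝ := ∑' i, w p (i + (l + 2)) with hT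
  have hT0 : 0 ≤ T := tsum_nonneg fun i => (hw _).le
  have hp2 : (2 : ℝ) ≤ p := by exact_mod_cast hp.two_le
  have hT1 : T ≤ w p (l + 1) ^ 2 / 1000 := by
    have h1 : T ≤ 2 * w p (l + 2) := n6 (l + 2)
    have h2 : w p (l + 2) = w p (l + 1) ^ 2 / (1000 * p) := rfl
    have h3 : w p (l + 2) ≤ w p (l + 1) ^ 2 / 2000 := by
      rw [h2]
      apply div_le_div_of_nonneg_left (by positivity) (by norm_num)
      linarith
    linarith
  have hT2 : T ≤ 1 / 1000 := by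
    have h1 : w p (l + 1) ^ 2 ≤ 1 := by nlinarith [hw (l + 1), hw1 (l + 1)]
    linarith
  obtain ⟨aa1, aa2, aa3, -⟩ := hAAF p N (l + 2) hN
  have hLa : ∀ F : H p N (l + 2) → ℂ, LF (ps ψ (l + 2)) F a = ap aa F + (T : ℂ) * F 0 := by
    intro F
    rw [ha, LF_el hw hs hN hψ ht ht0, aa1]
  have hap : ∀ (z : GA G) (F : H p N (l + 2) → ℂ), ap (fib (ps ψ (l + 2)) z) F =
      LF (ps ψ (l + 2)) F z := fun z F => sum_fib (ps ψ (l + 2)) F z
  have hap2 : ∀ (z z' : GA G) (F : H p N (l + 2) → ℂ),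
      ap2 (fib (ps ψ (l + 2)) z) (fib (ps ψ (l + 2)) z') F = LF (ps ψ (l + 2)) F (z * z') :=
    fun z z' F => LF_mul (ps ψ (l + 2)) hadd F z z'
  -- the fibres of `a`
  have hfa : fib (ps ψ (l + 2)) a = fun g => aa g + dl (T : ℂ) g := by
    funext v
    have h1 : fib (ps ψ (l + 2)) a v = LF (ps ψ (l + 2)) (Pi.single v 1) a := by
      unfold fib
      congr!
    rw [h1, ha, LF_el hw hs hN hψ ht ht0]
    congr 1
    · unfold aa
      refine Finset.sum_congr rfl fun i _ => ?_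
      congr 2
      funext h
      rw [Pi.single_apply]
    · unfold dl
      rw [Pi.single_apply]
      by_cases h0 : v = 0
      · rw [if_pos h0, if_pos h0.symm, mul_one]
      · rw [if_neg h0, if_neg (fun h => h0 h.symm), mul_zero]
  have haaF : ∀ F : H p N (l + 2) → ℂ, (∀ g, ‖F g‖ ≤ 1) → ‖ap aa F‖ ≤ 2 := by
    intro F hF
    unfold ap
    refine (norm_sum_le _ _).trans (le_trans (Finset.sum_le_sum fun g _ => ?_) aa2)
    rw [norm_mul]
    exact mul_le_of_le_one_right (norm_nonneg _) (hF g)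
  refine hfin l (fib (ps ψ (l + 2)) x) (fib (ps ψ (l + 2)) y) ⟨?_, ?_, ?_, ?_⟩
  · exact (sum_norm_fib _ x).trans (hnx x hx)
  · exact (sum_norm_fib _ y).trans (hnx y hy)
  · intro F hF
    rw [hap]
    have h1 : LF (ps ψ (l + 2)) F x - ap aa F = LF (ps ψ (l + 2)) F (x - a) + (T : ℂ) * F 0 := by
      rw [map_sub, hLa]
      ring
    rw [h1]
    refine (norm_add_le _ _).trans ?_
    have h2 := norm_LF_le (ps ψ (l + 2)) F hF (x - a)
    have h3 : ‖(T : ℂ) * F 0‖ ≤ T := by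
      rw [norm_mul, Complex.norm_real, Real.norm_of_nonneg hT0]
      exact mul_le_of_le_one_right hT0 (hF 0)
    linarith
  · intro F hF
    rw [hap2, hxy, hcdef, map_add, map_smul, smul_eq_mul, ← hap2, hfa, ap2_pert]
    have h1 : LF (ps ψ (l + 2)) F (xi p N t (l + 1)) = Ex (Fin.last (l + 1)) F :=
      LF_xi hψ ht ht0 F (Fin.last (l + 1))
    rw [h1]
    have h2 : ap2 aa aa F + 2 * (T : ℂ) * ap aa F + (T : ℂ) ^ 2 * F 0 +
        ((w p l ^ 2 / 100 : ℝ) : ℂ) * Ex (Fin.last (l + 1)) F -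
        (ap2 aa aa F + ((w p l ^ 2 / 100 : ℝ) : ℂ) * Ex (Fin.last (l + 1)) F) =
        2 * (T : ℂ) * ap aa F + (T : ℂ) ^ 2 * F 0 := by ring
    rw [h2]
    refine (norm_add_le _ _).trans ?_
    have h3 : ‖2 * (T : ℂ) * ap aa F‖ ≤ 4 * T := by
      rw [norm_mul, norm_mul, Complex.norm_real, Real.norm_of_nonneg hT0, Complex.norm_ofNat]
      have := haaF F hF
      nlinarith
    have h4 : ‖(T : ℂ) ^ 2 * F 0‖ ≤ T := by
      rw [norm_mul, norm_pow, Complex.norm_real, Real.norm_of_nonneg hT0]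
      have h5 := hF 0
      have h6 : T ^ 2 ≤ T := by nlinarith
      have h7 : T ^ 2 * ‖F 0‖ ≤ T ^ 2 := mul_le_of_le_one_right (by positivity) h5
      linarith
    have h8 : 0 ≤ w p (l + 1) ^ 2 := by positivity
    linarith

end

end Pool.Agent.D0H43.OP
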